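import Pool.Agent.H68.IT.EqElim
import Pool.Agent.H68.BG.Trans
import Pool.Agent.H17.PR.Pat2

set_option autoImplicit false

/-!
# From a digraph given by transitive tournaments to the template with equality
-/

namespace Pool.Agent.H68.IT

open Function FirstOrder FirstOrder.Language
open Pool.Agent.H1.PNP Pool.Agent.H1.NP
open Pool.Agent.H68.BP (Str IsHom strOf CSP Sig code csp_code Lan lstr graph width_digraph)
open Pool.Agent.H17.PR (Pe Blk Arc T_PAT pat)
open Pool.Agent.H17.DG (IsHomo)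
open Pool.Agent.H74.Stub (Atom)

/-- many-one reductions between languages from maps of strings -/
theorem manyOne_str {L M : N68a2faeb.DecisionProblem} {red : List Bool → List Bool}
    (hr : PolyOn (fun w => w) (fun w => w) red) (h : ∀ x, L x = true ↔ M (red x) = true) :
    N793a5b8e.ManyOneReducible L M :=
  Pool.Agent.H68.NPH.manyOne hr (Q := fun w => M w = true) (fun _ => Iff.rfl) h

/-- homomorphisms of a coded digraph -/
theorem csp_arc {G : Type} (E : G → G → Prop) {n : ℕ} {L : List (List ℕ)}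
    (hL : ∀ c ∈ L, c.length = 3) :
    CSP (graph E) (code n L) = true ↔
      ∃ f : Fin n → G, IsHomo (fun u v : Fin n => Arc n L u v) E f := by
  rw [csp_code (graph E) (by rw [width_digraph]; exact hL)]
  refine exists_congr fun f => ?_
  constructor
  · rintro h u v ⟨-, -, h1⟩
    have h2 := h (0 : Fin 1) (![u, v] : Fin 2 → Fin n) ⟨[0, (u : ℕ), (v : ℕ)], h1, rfl, fun i => by
      change Fin 2 at i
      fin_cases i <;> rfl⟩
    exact h2
  · rintro h l x ⟨c, hc, h1, h2⟩
    have h3 := h2 (0 : Fin 2)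
    have h4 := h2 (1 : Fin 2)
    have h5 := hL c hc
    have hl : l = (0 : Fin 1) := Subsingleton.elim (α := Fin 1) l 0
    subst hl
    match c, h5 with
    | [a, b, d], _ =>
      have e1 : a = 0 := h1
      have e2 : b = x (0 : Fin 2) := h3
      have e3 : d = x (1 : Fin 2) := h4
      refine h (x (0 : Fin 2)) (x (1 : Fin 2)) ⟨(x (0 : Fin 2)).2, (x (1 : Fin 2)).2, ?_⟩
      rw [← e1, ← e2, ← e3]
      exact hc

theorem csp_bad {G : Type} (E : G → G → Prop) {x : List Bool}
    (h : ¬ ∃ n L, (∀ c ∈ L, c.length = 3) ∧ code n L = x) : ¬ CSP (graph E) x = true := by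
  intro hx
  obtain ⟨n, L, h1, h2⟩ := Pool.Agent.H68.BP.csp_true (graph E) hx
  rw [width_digraph] at h1
  exact h ⟨n, L, h1, h2⟩

/-- all arcs of the transitive tournament -/
def tArcs (m : ℕ) : List (Fin m × Fin m) :=
  (List.product (List.finRange m) (List.finRange m)).filter (fun e => e.1 < e.2)

theorem mem_tArcs {m : ℕ} {e : Fin m × Fin m} : e ∈ tArcs m ↔ e.1 < e.2 := by
  obtain ⟨i, j⟩ := e
  unfold tArcs
  rw [List.mem_filter, List.pair_mem_product]
  simp

theorem tArcs_cov {m : ℕ} (hm : 2 ≤ m) (v : Fin m) : ∃ e ∈ tArcs m, e.1 = v ∨ e.2 = v := by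
  by_cases hv : (v : ℕ) = 0
  · exact ⟨(v, ⟨1, by omega⟩), mem_tArcs.2 (by rw [Fin.lt_def]; simp [hv]), Or.inl rfl⟩
  · exact ⟨(⟨0, by omega⟩, v), mem_tArcs.2 (by rw [Fin.lt_def]; exact Nat.pos_of_ne_zero hv),
      Or.inr rfl⟩

section

variable {σ : Sig} {m : ℕ}

/-- the rows of an atomic formula -/
def aRows : Atom (Lan σ) (Fin m) → List (ℕ → Pe m)
  | .bot => []
  | .eq x y => [fun i => if i = 0 then .con 0 else if i = 1 then .vx x else .vx y]
  | .rel (n := a) R t => [fun i => if i = 0 then .con ((R.1 : ℕ) + 1) else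
      if h : i - 1 < a then .vx (t ⟨i - 1, h⟩) else .con 0]

/-- the formula is false -/
def aBot : Atom (Lan σ) (Fin m) → Bool
  | .bot => true
  | .eq _ _ => false
  | .rel _ _ => false

/-- the block of an atomic formula -/
def aBlk (hm : 2 ≤ m) (a : Atom (Lan σ) (Fin m)) : Blk where
  q := m
  arcs := tArcs m
  cov := tArcs_cov hm
  rows := aRows a
  fls := aBot a

/-- the block of the cycle of length two -/
def cBlk : Blk where
  q := 2
  arcs := [(0, 1), (1, 0)]
  cov := by
    intro v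
    refine ⟨(0, 1), by simp, ?_⟩
    fin_cases v
    · exact Or.inl rfl
    · exact Or.inr rfl
  rows := []
  fls := true

variable {A : Type} (𝔸 : Str σ A)

theorem holds_rows {n : ℕ} (f : ℕ → A) (h : Fin m → ℕ) (a : Atom (Lan σ) (Fin m)) :
    @Atom.Holds (Lan σ) (Fin m) A (lstr 𝔸) (fun i => f (h i)) a ↔ aBot a = false ∧
      ∀ r ∈ aRows a, ∀ l : Fin (sigE σ).m, (r 0).val n h = l →
        strE 𝔸 l (fun i => f ((r (i + 1)).val n h)) := by
  cases a with
  | bot =>
    constructor
    · intro h; exact h.elim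
    · rintro ⟨h, -⟩; cases h
  | eq x y =>
    unfold aRows
    rw [List.forall_mem_singleton]
    constructor
    · intro h1
      refine ⟨rfl, ?_⟩
      intro l hl
      have hl0 : l = (0 : Fin (σ.m + 1)) := by
        apply Fin.ext
        exact hl.symm
      subst hl0
      exact h1
    · rintro ⟨-, h1⟩
      exact h1 (0 : Fin (σ.m + 1)) rfl
  | @rel a R t =>
    obtain ⟨l₀, rfl⟩ := R
    unfold aRows
    rw [List.forall_mem_singleton]
    have hkey : ∀ i : Fin (σ.ar l₀), (Pe.val n h ((fun i : ℕ => if i = 0 then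
        Pe.con ((l₀ : ℕ) + 1) else if h : i - 1 < σ.ar l₀ then Pe.vx (t ⟨i - 1, h⟩)
          else Pe.con 0) ((i : ℕ) + 1)) : ℕ) = h (t i) := by
      intro i
      have h1 : (i : ℕ) + 1 - 1 < σ.ar l₀ := by have := i.2; omega
      simp only [Nat.add_one_ne_zero, if_false, dif_pos h1, Pe.val]
      congr 1
    constructor
    · intro h1
      refine ⟨rfl, ?_⟩
      intro l hl
      have hl0 : l = (Fin.succ l₀ : Fin (σ.m + 1)) := by
        apply Fin.ext
        exact hl.symm
      subst hl0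
      have h2 : (fun i : Fin (σ.ar l₀) => f (Pe.val n h ((fun i : ℕ => if i = 0 then
        Pe.con ((l₀ : ℕ) + 1) else if h : i - 1 < σ.ar l₀ then Pe.vx (t ⟨i - 1, h⟩)
          else Pe.con 0) ((i : ℕ) + 1)))) = fun i => f (h (t i)) := by
        funext i
        rw [hkey]
      change 𝔸 l₀ (fun i : Fin (σ.ar l₀) => f (Pe.val n h ((fun i : ℕ => if i = 0 then
        Pe.con ((l₀ : ℕ) + 1) else if h : i - 1 < σ.ar l₀ then Pe.vx (t ⟨i - 1, h⟩)
          else Pe.con 0) ((i : ℕ) + 1))))
      rw [h2]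
      exact h1
    · rintro ⟨-, h1⟩
      have h3 := h1 (Fin.succ l₀ : Fin (σ.m + 1)) rfl
      change 𝔸 l₀ (fun i : Fin (σ.ar l₀) => f (Pe.val n h ((fun i : ℕ => if i = 0 then
        Pe.con ((l₀ : ℕ) + 1) else if h : i - 1 < σ.ar l₀ then Pe.vx (t ⟨i - 1, h⟩)
          else Pe.con 0) ((i : ℕ) + 1)))) at h3
      have h2 : (fun i : Fin (σ.ar l₀) => f (Pe.val n h ((fun i : ℕ => if i = 0 then
        Pe.con ((l₀ : ℕ) + 1) else if h : i - 1 < σ.ar l₀ then Pe.vx (t ⟨i - 1, h⟩)
          else Pe.con 0) ((i : ℕ) + 1)))) = fun i => f (h (t i)) := by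
        funext i
        rw [hkey]
      rw [h2] at h3
      exact h3

variable {K : Type} {R : K → K → Prop}

/-- the reduction, with variables for vertices -/
theorem manyOne_tour [Nonempty A] (hm : 2 ≤ m) (l : List (Atom (Lan σ) (Fin m)))
    (hl : ∀ (X : Type) [Finite X] (F : X → X → Prop), (∃ h : X → K, IsHomo F R h) ↔
      (∀ x y, F x y → ¬ F y x) ∧ ∃ c : X → A, ∀ x : Fin m → X,
        (∀ i j, i < j → F (x i) (x j)) → ∀ a ∈ l,
          @Atom.Holds (Lan σ) (Fin m) A (lstr 𝔸) (fun i => c (x i)) a) :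
    N793a5b8e.ManyOneReducible (CSP (graph R)) (CSP (strE 𝔸)) := by
  classical
  obtain ⟨red, h1, h2, h3⟩ := pat (sigE σ) (cBlk :: l.map (aBlk hm))
  refine manyOne_str h1 fun x => ?_
  by_cases hx : ∃ n L, (∀ c ∈ L, c.length = 3) ∧ code n L = x
  · obtain ⟨n, L, hL, rfl⟩ := hx
    rw [csp_arc R hL, h3 A inferInstance (strE 𝔸) n L hL, hl]
    have hc : ∀ h : Fin 2 → ℕ, cBlk.Occ n L h ↔ Arc n L (h 0) (h 1) ∧ Arc n L (h 1) (h 0) := by
      intro h
      unfold Blk.Occ cBlk
      simp
    have ha : ∀ (a : Atom (Lan σ) (Fin m)) (h : Fin m → ℕ), (aBlk hm a).Occ n L h ↔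
        ∀ i j, i < j → Arc n L (h i) (h j) := by
      intro a h
      constructor
      · intro h4 i j hij
        exact h4 (i, j) (mem_tArcs.2 hij)
      · rintro h4 ⟨i, j⟩ he
        exact h4 i j (mem_tArcs.1 he)
    have hlt : ∀ h : Fin m → ℕ, (∀ i j, i < j → Arc n L (h i) (h j)) → ∀ i, h i < n := by
      intro h h4 i
      obtain ⟨e, he, h5⟩ := tArcs_cov hm i
      have h6 := h4 e.1 e.2 (mem_tArcs.1 he)
      rcases h5 with rfl | rfl
      · exact h6.1
      · exact h6.2.1
    constructor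
    · rintro ⟨h4, c, h5⟩
      let f : ℕ → A := fun v => if hv : v < n then c ⟨v, hv⟩ else Classical.arbitrary A
      have key : ∀ a ∈ l, ∀ h : Fin m → ℕ, (∀ i j, i < j → Arc n L (h i) (h j)) →
          @Atom.Holds (Lan σ) (Fin m) A (lstr 𝔸) (fun i => f (h i)) a := by
        intro a ha h h6
        have h7 := hlt h h6
        have h8 := h5 (fun i => ⟨h i, h7 i⟩) (fun i j hij => h6 i j hij) a ha
        have h9 : (fun i => f (h i)) = fun i => c ⟨h i, h7 i⟩ := by
          funext i
          exact dif_pos (h7 i)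
        rw [h9]
        exact h8
      refine ⟨?_, f, ?_⟩
      · intro b hb hf h hocc
        rw [List.mem_cons] at hb
        rcases hb with rfl | hb
        · have h6 := (hc h).1 hocc
          exact h4 ⟨h (0 : Fin 2), h6.1.1⟩ ⟨h (1 : Fin 2), h6.1.2.1⟩ h6.1 h6.2
        · obtain ⟨a, ha', rfl⟩ := List.mem_map.1 hb
          have h6 := (holds_rows 𝔸 (n := n) f h a).1 (key a ha' h ((ha a h).1 hocc))
          have h7 : aBot a = true := hf
          exact Bool.noConfusion (h6.1.symm.trans h7)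
      · intro b hb h hocc r hr l' hl'
        rw [List.mem_cons] at hb
        rcases hb with rfl | hb
        · exact absurd hr List.not_mem_nil
        · obtain ⟨a, ha', rfl⟩ := List.mem_map.1 hb
          have h6 := (holds_rows 𝔸 (n := n) f h a).1 (key a ha' h ((ha a h).1 hocc))
          exact h6.2 r hr l' hl'
    · rintro ⟨h4, f, h5⟩
      refine ⟨?_, fun v => f v, ?_⟩
      · intro u v huv hvu
        exact h4 cBlk (List.mem_cons_self ..) rfl ![u, v] ((hc _).2 ⟨huv, hvu⟩)
      · intro x hx a ha'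
        have hocc : (aBlk hm a).Occ n L (fun i => (x i : ℕ)) := (ha a _).2 hx
        have hmem : aBlk hm a ∈ cBlk :: l.map (aBlk hm) :=
          List.mem_cons_of_mem _ (List.mem_map.2 ⟨a, ha', rfl⟩)
        refine (holds_rows 𝔸 (n := n) f (fun i => (x i : ℕ)) a).2 ⟨?_, ?_⟩
        · by_contra hb
          rw [Bool.not_eq_false] at hb
          exact h4 _ hmem hb _ hocc
        · intro r hr l' hl'
          exact h5 _ hmem _ hocc r hr l' hl'
  · constructor
    · intro h
      exact absurd h (csp_bad R hx)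
    · intro h
      rw [h2 A (strE 𝔸) x hx] at h
      cases h

/-- M4 -/
theorem m4 [Nonempty A] (hm : 2 ≤ m) (l : List (Atom (Lan σ) (Fin (0 + 1) → Fin m)))
    (hl : ∀ (X : Type) [Finite X] (F : X → X → Prop), (∃ h : X → K, IsHomo F R h) ↔
      (∀ x y, F x y → ¬ F y x) ∧ ∃ c : (Fin (0 + 1) → X) → A, ∀ x : Fin m → X,
        (∀ i j, i < j → F (x i) (x j)) → ∀ a ∈ l,
          @Atom.Holds (Lan σ) (Fin (0 + 1) → Fin m) A (lstr 𝔸)
            (fun p => c (fun i => x (p i))) a) :
    N793a5b8e.ManyOneReducible (CSP (graph R)) (CSP (strE 𝔸)) := by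
  let _ := lstr 𝔸
  refine manyOne_tour 𝔸 hm (l.map (Atom.map (fun p => p 0))) fun X _ F => ?_
  rw [hl]
  refine and_congr_right fun _ => ?_
  constructor
  · rintro ⟨c, hc⟩
    refine ⟨fun q => c (fun _ => q), fun x hx a ha => ?_⟩
    obtain ⟨b, hb, rfl⟩ := List.mem_map.1 ha
    rw [Pool.Agent.H74.Stub.Atom.holds_map]
    have h2 := hc x hx b hb
    have e : (fun p : Fin (0 + 1) → Fin m => c (fun _ => x (p 0))) =
        fun p => c (fun i => x (p i)) := by
      funext p
      congr 1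
      funext i
      have h3 : i = 0 := Fin.ext (by omega)
      rw [h3]
    rw [← e] at h2
    exact h2
  · rintro ⟨c, hc⟩
    refine ⟨fun q => c (q 0), fun x hx a ha => ?_⟩
    have h2 := hc x hx (Atom.map (fun p => p 0) a) (List.mem_map.2 ⟨a, ha, rfl⟩)
    rw [Pool.Agent.H74.Stub.Atom.holds_map] at h2
    exact h2

end

end Pool.Agent.H68.IT
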