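import Pool.Agent.H68.IT.M4
import Pool.Agent.H17.UG.Defs
import Pool.Agent.H17.UG.Gen

set_option autoImplicit false

/-!
# From the undirected graph to the digraph with equality
-/

namespace Pool.Agent.H68.IT

open Function
open Pool.Agent.H1.PNP Pool.Agent.H1.NP
open Pool.Agent.H68.BP (Str IsHom strOf CSP Sig code csp_code graph width_digraph)
open Pool.Agent.H17.PR (Pe Blk Arc T_PAT pat)
open Pool.Agent.H17.DG (IsHomo)
open Pool.Agent.H17.UG (W wl rt Rol Sym Gd)

/-! ### Undirected patterns -/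

section

variable {q : ℕ}

/-- an orientation of a list of edges -/
def orient (EL : List (Fin q × Fin q)) (o : Fin EL.length → Bool) : List (Fin q × Fin q) :=
  (List.finRange EL.length).map (fun k => if o k then EL.get k else (EL.get k).swap)

theorem orient_occ {EL : List (Fin q × Fin q)} {P : ℕ → ℕ → Prop} {h : Fin q → ℕ} :
    (∃ o, ∀ e ∈ orient EL o, P (h e.1) (h e.2)) ↔
      ∀ e ∈ EL, P (h e.1) (h e.2) ∨ P (h e.2) (h e.1) := by
  classical
  constructor
  · rintro ⟨o, ho⟩ e he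
    obtain ⟨k, rfl⟩ := List.get_of_mem he
    have h1 := ho _ (List.mem_map.2 ⟨k, List.mem_finRange k, rfl⟩)
    split_ifs at h1 with hk
    · exact Or.inl h1
    · exact Or.inr h1
  · intro hE
    refine ⟨fun k => decide (P (h (EL.get k).1) (h (EL.get k).2)), fun e he => ?_⟩
    obtain ⟨k, -, rfl⟩ := List.mem_map.1 he
    split_ifs with hk
    · exact of_decide_eq_true hk
    · rcases hE _ (List.get_mem EL k) with h1 | h1
      · exact absurd (decide_eq_true h1) hk
      · exact h1

/-- the block of an orientation -/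
def oBlk (EL : List (Fin q × Fin q)) (cov : ∀ v, ∃ e ∈ EL, e.1 = v ∨ e.2 = v)
    (rows : List (ℕ → Pe q)) (o : Fin EL.length → Bool) : Blk where
  q := q
  arcs := orient EL o
  cov := by
    intro v
    obtain ⟨e, he, h⟩ := cov v
    obtain ⟨k, rfl⟩ := List.get_of_mem he
    refine ⟨_, List.mem_map.2 ⟨k, List.mem_finRange k, rfl⟩, ?_⟩
    split_ifs
    · exact h
    · exact h.symm
  rows := rows
  fls := false

/-- the blocks of all orientations -/
noncomputable def oBlks (EL : List (Fin q × Fin q)) (cov : ∀ v, ∃ e ∈ EL, e.1 = v ∨ e.2 = v)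
    (rows : List (ℕ → Pe q)) : List Blk :=
  (Finset.univ : Finset (Fin EL.length → Bool)).toList.map (oBlk EL cov rows)

theorem oBlks_fls {EL : List (Fin q × Fin q)} {cov : ∀ v, ∃ e ∈ EL, e.1 = v ∨ e.2 = v}
    {rows : List (ℕ → Pe q)} {b : Blk} (hb : b ∈ oBlks EL cov rows) : b.fls = false := by
  obtain ⟨o, -, rfl⟩ := List.mem_map.1 hb
  rfl

theorem oBlks_iff {EL : List (Fin q × Fin q)} {cov : ∀ v, ∃ e ∈ EL, e.1 = v ∨ e.2 = v}
    {rows : List (ℕ → Pe q)} {n : ℕ} {L : List (List ℕ)} {τ : Sig} {B : Type} {𝔹 : Str τ B}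
    {f : ℕ → B} :
    (∀ b ∈ oBlks EL cov rows, ∀ h, b.Occ n L h → ∀ r ∈ b.rows, ∀ l : Fin τ.m,
      (r 0).val n h = l → 𝔹 l (fun i => f ((r (i + 1)).val n h))) ↔
    ∀ h : Fin q → ℕ, (∀ e ∈ EL, Arc n L (h e.1) (h e.2) ∨ Arc n L (h e.2) (h e.1)) →
      ∀ r ∈ rows, ∀ l : Fin τ.m, (r 0).val n h = l →
        𝔹 l (fun i => f ((r (i + 1)).val n h)) := by
  constructor
  · intro h1 h hh
    obtain ⟨o, ho⟩ := orient_occ.2 hh
    exact h1 (oBlk EL cov rows o) (List.mem_map.2 ⟨o, Finset.mem_toList.2 (Finset.mem_univ o),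
      rfl⟩) h ho
  · intro h1 b hb h hocc
    obtain ⟨o, -, rfl⟩ := List.mem_map.1 hb
    exact h1 h (orient_occ.1 ⟨o, hocc⟩)

end

/-! ### Two copies of the graph `W` and an edge -/

/-- the vertices of the first copy -/
abbrev v1 : Fin 9 → Fin (9 + 9) := Fin.castAdd 9

/-- the vertices of the second copy -/
abbrev v2 : Fin 9 → Fin (9 + 9) := Fin.natAdd 9

/-- the edges of the pattern -/
def EL (i j : Fin 3) : List (Fin (9 + 9) × Fin (9 + 9)) :=
  (v1 (rt i), v2 (rt j)) :: (wl.map (fun e => (v1 e.1, v1 e.2)) ++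
    wl.map (fun e => (v2 e.1, v2 e.2)))

theorem wl_cov (v : Fin 9) : ∃ e ∈ wl, e.1 = v ∨ e.2 = v := by
  revert v
  decide

theorem EL_cov (i j : Fin 3) (v : Fin (9 + 9)) : ∃ e ∈ EL i j, e.1 = v ∨ e.2 = v := by
  refine Fin.addCases (fun u => ?_) (fun u => ?_) v
  · obtain ⟨e, he, h⟩ := wl_cov u
    refine ⟨(v1 e.1, v1 e.2), ?_, ?_⟩
    · exact List.mem_cons_of_mem _ (List.mem_append_left _ (List.mem_map.2 ⟨e, he, rfl⟩))
    · rcases h with rfl | rfl
      · exact Or.inl rfl
      · exact Or.inr rfl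
  · obtain ⟨e, he, h⟩ := wl_cov u
    refine ⟨(v2 e.1, v2 e.2), ?_, ?_⟩
    · exact List.mem_cons_of_mem _ (List.mem_append_right _ (List.mem_map.2 ⟨e, he, rfl⟩))
    · rcases h with rfl | rfl
      · exact Or.inl rfl
      · exact Or.inr rfl

theorem EL_iff {P : ℕ → ℕ → Prop} {i j : Fin 3} {h : Fin (9 + 9) → ℕ} :
    (∀ e ∈ EL i j, P (h e.1) (h e.2) ∨ P (h e.2) (h e.1)) ↔
      (P (h (v1 (rt i))) (h (v2 (rt j))) ∨ P (h (v2 (rt j))) (h (v1 (rt i)))) ∧
      (∀ u v, W u v → P (h (v1 u)) (h (v1 v)) ∨ P (h (v1 v)) (h (v1 u))) ∧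
      ∀ u v, W u v → P (h (v2 u)) (h (v2 v)) ∨ P (h (v2 v)) (h (v2 u)) := by
  constructor
  · intro h1
    refine ⟨h1 _ (List.mem_cons_self ..), ?_, ?_⟩
    · rintro u v (huv | huv)
      · exact h1 (v1 u, v1 v) (List.mem_cons_of_mem _ (List.mem_append_left _
          (List.mem_map.2 ⟨_, huv, rfl⟩)))
      · exact (h1 (v1 v, v1 u) (List.mem_cons_of_mem _ (List.mem_append_left _
          (List.mem_map.2 ⟨_, huv, rfl⟩)))).symm
    · rintro u v (huv | huv)
      · exact h1 (v2 u, v2 v) (List.mem_cons_of_mem _ (List.mem_append_right _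
          (List.mem_map.2 ⟨_, huv, rfl⟩)))
      · exact (h1 (v2 v, v2 u) (List.mem_cons_of_mem _ (List.mem_append_right _
          (List.mem_map.2 ⟨_, huv, rfl⟩)))).symm
  · rintro ⟨h1, h2, h3⟩ e he
    rcases List.mem_cons.1 he with rfl | he
    · exact h1
    · rcases List.mem_append.1 he with he | he
      · obtain ⟨d, hd, rfl⟩ := List.mem_map.1 he
        exact h2 _ _ (Or.inl hd)
      · obtain ⟨d, hd, rfl⟩ := List.mem_map.1 he
        exact h3 _ _ (Or.inl hd)

/-- the rows of the pattern -/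
def eRows (i j : Fin 3) : List (ℕ → Pe (9 + 9)) :=
  if i = 0 ∧ j = 1 then
    [fun p => if p = 0 then .con 1 else if p = 1 then .vx (v1 (rt i)) else .vx (v2 (rt j))]
  else if (i = 0 ∨ i = 1) ∧ j = 2 then
    [fun p => if p = 0 then .con 0 else if p = 1 then .vx (v1 (rt i)) else .vx (v2 (rt j))]
  else []

theorem eRows_iff {K : Type} {R : K → K → Prop} {i j : Fin 3} {n : ℕ} {f : ℕ → K}
    {h : Fin (9 + 9) → ℕ} :
    (∀ r ∈ eRows i j, ∀ l : Fin (sigE Sig.digraph).m, (r 0).val n h = l →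
      strE (graph R) l (fun p => f ((r (p + 1)).val n h))) ↔
      Pool.Agent.H17.UG.Con R i j (f (h (v1 (rt i)))) (f (h (v2 (rt j)))) := by
  unfold eRows Pool.Agent.H17.UG.Con
  by_cases h1 : i = 0 ∧ j = 1
  · obtain ⟨rfl, rfl⟩ := h1
    rw [if_pos ⟨rfl, rfl⟩, List.forall_mem_singleton]
    constructor
    · intro h2
      refine ⟨fun _ _ => ?_, fun _ h => absurd h (by decide), fun h _ => absurd h (by decide)⟩
      exact h2 (Fin.succ (0 : Fin 1) : Fin (1 + 1)) rfl
    · rintro ⟨h2, -, -⟩ l hl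
      have hl0 : l = (Fin.succ (0 : Fin 1) : Fin (1 + 1)) := Fin.ext hl.symm
      subst hl0
      exact h2 rfl rfl
  · rw [if_neg h1]
    by_cases h2 : (i = 0 ∨ i = 1) ∧ j = 2
    · rw [if_pos h2, List.forall_mem_singleton]
      constructor
      · intro h3
        have h4 := h3 (0 : Fin (1 + 1)) rfl
        exact ⟨fun a b => absurd ⟨a, b⟩ h1, fun _ _ => h4, fun _ _ => h4⟩
      · rintro ⟨-, h3, h4⟩ l hl
        have hl0 : l = (0 : Fin (1 + 1)) := Fin.ext hl.symm
        subst hl0
        have h5 : f (h (v1 (rt i))) = f (h (v2 (rt j))) := by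
          rcases h2.1 with hi | hi
          · exact h3 hi h2.2
          · exact h4 hi h2.2
        exact h5
    · rw [if_neg h2]
      constructor
      · intro _
        exact ⟨fun a b => absurd ⟨a, b⟩ h1, fun a b => absurd ⟨Or.inl a, b⟩ h2,
          fun a b => absurd ⟨Or.inr a, b⟩ h2⟩
      · intro _ r hr
        exact absurd hr List.not_mem_nil

/-- all blocks -/
noncomputable def mBlks : List Blk :=
  (List.finRange 3).flatMap (fun i => (List.finRange 3).flatMap (fun j =>
    oBlks (EL i j) (EL_cov i j) (eRows i j)))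

theorem mem_mBlks {b : Blk} :
    b ∈ mBlks ↔ ∃ i j, b ∈ oBlks (EL i j) (EL_cov i j) (eRows i j) := by
  unfold mBlks
  simp only [List.mem_flatMap, List.mem_finRange, true_and]

/-- M3 -/
theorem m3 {K G : Type} [Nonempty K] {R : K → K → Prop} {E : G → G → Prop}
    (hiff : ∀ (X : Type) [Finite X] (F : X → X → Prop),
      (∃ h : X → G, IsHomo F E h) ↔ ∃ c : X → K, Gd R (Sym F) c) :
    N793a5b8e.ManyOneReducible (CSP (graph E)) (CSP (strE (graph R))) := by
  classical
  obtain ⟨red, h1, h2, h3⟩ := pat (sigE Sig.digraph) mBlks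
  refine manyOne_str h1 fun x => ?_
  by_cases hx : ∃ n L, (∀ c ∈ L, c.length = 3) ∧ code n L = x
  · obtain ⟨n, L, hL, rfl⟩ := hx
    rw [csp_arc E hL, h3 K inferInstance (strE (graph R)) n L hL, hiff]
    have hf : ∀ b ∈ mBlks, b.fls = true → ∀ h, ¬ b.Occ n L h := by
      intro b hb hb2
      obtain ⟨i, j, hb⟩ := mem_mBlks.1 hb
      exact Bool.noConfusion ((oBlks_fls hb).symm.trans hb2)
    have key : ∀ f : ℕ → K, (∀ b ∈ mBlks, ∀ h, b.Occ n L h → ∀ r ∈ b.rows,
        ∀ l : Fin (sigE Sig.digraph).m, (r 0).val n h = l →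
          strE (graph R) l (fun i => f ((r (i + 1)).val n h))) ↔
        Gd R (Sym (fun u v : Fin n => Arc n L u v)) (fun v => f v) := by
      intro f
      have e1 : (∀ b ∈ mBlks, ∀ h, b.Occ n L h → ∀ r ∈ b.rows,
        ∀ l : Fin (sigE Sig.digraph).m, (r 0).val n h = l →
          strE (graph R) l (fun i => f ((r (i + 1)).val n h))) ↔
          ∀ i j : Fin 3, ∀ h : Fin (9 + 9) → ℕ,
            (∀ e ∈ EL i j, Arc n L (h e.1) (h e.2) ∨ Arc n L (h e.2) (h e.1)) →
              Pool.Agent.H17.UG.Con R i j (f (h (v1 (rt i)))) (f (h (v2 (rt j)))) := by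
        constructor
        · intro h4 i j h hh
          refine (eRows_iff (n := n)).1 ?_
          exact (oBlks_iff (cov := EL_cov i j) (rows := eRows i j)).1
            (fun b hb => h4 b (mem_mBlks.2 ⟨i, j, hb⟩)) h hh
        · intro h4 b hb
          obtain ⟨i, j, hb⟩ := mem_mBlks.1 hb
          exact (oBlks_iff (cov := EL_cov i j) (rows := eRows i j)).2
            (fun h hh => eRows_iff.2 (h4 i j h hh)) b hb
      rw [e1]
      constructor
      · rintro h4 x y i j hxy ⟨g1, g2, rfl⟩ ⟨g3, g4, rfl⟩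
        let h : Fin (9 + 9) → ℕ := Fin.addCases (fun u => (g1 u : ℕ)) (fun u => (g3 u : ℕ))
        have hv1 : ∀ u, h (v1 u) = g1 u := fun u => Fin.addCases_left u
        have hv2 : ∀ u, h (v2 u) = g3 u := fun u => Fin.addCases_right u
        have h5 := h4 i j h (EL_iff.2 ⟨?_, ?_, ?_⟩)
        · rw [hv1, hv2] at h5
          exact h5
        · rw [hv1, hv2]
          exact hxy
        · intro u v huv
          rw [hv1, hv1]
          exact g2 u v huv
        · intro u v huv
          rw [hv2, hv2]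
          exact g4 u v huv
      · intro h4 i j h hh
        obtain ⟨h5, h6, h7⟩ := EL_iff.1 hh
        have l1 : ∀ u, h (v1 u) < n := by
          intro u
          obtain ⟨e, he, h8⟩ := wl_cov u
          rcases h8 with rfl | rfl
          · rcases h6 _ _ (Or.inl he) with h9 | h9
            · exact h9.1
            · exact h9.2.1
          · rcases h6 _ _ (Or.inl he) with h9 | h9
            · exact h9.2.1
            · exact h9.1
        have l2 : ∀ u, h (v2 u) < n := by
          intro u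
          obtain ⟨e, he, h8⟩ := wl_cov u
          rcases h8 with rfl | rfl
          · rcases h7 _ _ (Or.inl he) with h9 | h9
            · exact h9.1
            · exact h9.2.1
          · rcases h7 _ _ (Or.inl he) with h9 | h9
            · exact h9.2.1
            · exact h9.1
        exact h4 ⟨_, l1 (rt i)⟩ ⟨_, l2 (rt j)⟩ i j h5
          ⟨fun u => ⟨_, l1 u⟩, fun u v huv => h6 u v huv, rfl⟩
          ⟨fun u => ⟨_, l2 u⟩, fun u v huv => h7 u v huv, rfl⟩
    constructor
    · rintro ⟨c, hc⟩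
      let f : ℕ → K := fun v => if hv : v < n then c ⟨v, hv⟩ else Classical.arbitrary K
      refine ⟨hf, f, (key f).2 ?_⟩
      have e : (fun v : Fin n => f (v : ℕ)) = c := by
        funext v
        exact dif_pos v.2
      rw [e]
      exact hc
    · rintro ⟨-, f, h5⟩
      exact ⟨fun v => f v, (key f).1 h5⟩
  · constructor
    · intro h
      exact absurd h (csp_bad E hx)
    · intro h
      rw [h2 K (strE (graph R)) x hx] at h
      cases h

end Pool.Agent.H68.IT
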