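import Pool.Agent.H68.IT.Lang2

/-!
# Every template in the scope is equivalent, up to many-one reductions in polynomial time, to an
undirected graph
-/

namespace Pool.Agent.H68.IT

open FirstOrder FirstOrder.Language Function
open Pool.Agent.H17 Pool.Agent.H68.BP Pool.Agent.H1.PNP

theorem manyOne_trans {L M N : N68a2faeb.DecisionProblem}
    (h1 : N793a5b8e.ManyOneReducible L M) (h2 : N793a5b8e.ManyOneReducible M N) :
    N793a5b8e.ManyOneReducible L N := by
  obtain ⟨f, ⟨hf⟩, h1⟩ := h1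
  obtain ⟨g, ⟨hg⟩, h2⟩ := h2
  exact ⟨fun x => g (f x), Pool.Agent.H1.Comp.comp_polyTime hf hg,
    fun x => (h1 x).trans (h2 (f x))⟩

/-- The undirected graph, with the reductions in both directions; everything on `G` is in the form
which is used for the `k`-homogeneous graph. -/
theorem exists_graph_both {σ : Sig} {D : Type} {𝔸 : Str σ D} (h : BP.InScope 𝔸) :
    ∃ (G : Type) (E : G → G → Prop), UG.GraphTemplate G E ∧
      (PPConstructsK3 (graph E) ↔ PPConstructsK3 𝔸) ∧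
      N793a5b8e.ManyOneReducible (CSP 𝔸) (CSP (graph E)) ∧
      N793a5b8e.ManyOneReducible (CSP (graph E)) (CSP 𝔸) := by
  obtain ⟨G, E, ⟨hsc, hinf, hsym, hirr, hno⟩, hK3, ⟨S, hS, hhom⟩, K, R, m, l, hK, hm, h1, h2⟩ :=
    @construction2 (Lan σ) D (lstr 𝔸) (inScope_lan h)
  obtain ⟨g, hg⟩ := reduces_of_hom 𝔸 1 S hS hhom
  have : Nonempty G := inferInstance
  have : Nonempty D := h.2.1
  refine ⟨G, E, ⟨hsc, hinf, hsym, hirr, hno⟩,
    ⟨fun h5 => k3_lan (hK3.1 (k3_graph h5)), fun h5 => k3_graph' (hK3.2 (k3_lan' h5))⟩,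
    manyOne_of_gadget hirr hg, ?_⟩
  have e1 : N793a5b8e.ManyOneReducible (CSP (graph E)) (CSP (strE (graph R))) := m3 h1
  have e2 : N793a5b8e.ManyOneReducible (CSP (strE (graph R))) (CSP (graph R)) := manyOne_eq _ _
  have e3 : N793a5b8e.ManyOneReducible (CSP (graph R)) (CSP (strE 𝔸)) := m4 𝔸 hm l h2
  have e4 : N793a5b8e.ManyOneReducible (CSP (strE 𝔸)) (CSP 𝔸) := manyOne_eq _ _
  exact manyOne_trans e1 (manyOne_trans e2 (manyOne_trans e3 e4))

end Pool.Agent.H68.IT
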