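import Pool.Agent.H68.IT.EqSem
import Pool.Agent.H68.BT.Red

/-!
Elimination of equality constraints in polynomial time.
-/

namespace Pool.Agent.H68.IT

open Pool.Agent.H1.NP Pool.Agent.H1.PNP Pool.Agent.H68.OQP
open Pool.Agent.H68.NPH hiding prs eN
open Function Polynomial
open Pool.Agent.H68.BP (Str IsHom strOf CSP flatten_getD flatten_length Sig ph cV code code_eq
  ph_vals csp_code csp_true code_of_cV polyOn_numsR lgF)
open Pool.Agent.H68.BT (Wg csp_nil)

/-- the code of a state -/
abbrev eS {W : ℕ} (s : St W) : List Bool := unary (ls s)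

theorem polyOn_step {W : ℕ} (hW : 3 ≤ W) : PolyOn (eS (W := W)) (eS (W := W)) stepS :=
  (polyOn_lg (gS W)).congr ls (fun _ => rfl) (fun s => by rw [gS_out hW])

theorem unary_le {M : ℕ} : ∀ {l : List ℕ}, (∀ e ∈ l, e ≤ M) →
    (unary l).length ≤ l.length * (M + 1) := by
  intro l
  induction l with
  | nil => intro _; simp [unary]
  | cons a l ih =>
    intro h
    have h1 := ih (fun e he => h e (by simp [he]))
    have h2 := h a (by simp)
    rw [unary_cons', List.length_append, List.length_replicate, List.length_cons,
      List.length_cons, Nat.succ_mul]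
    omega

theorem le_unary : ∀ {l : List ℕ} {e : ℕ}, e ∈ l → e + 1 ≤ (unary l).length := by
  intro l
  induction l with
  | nil => intro e he; cases he
  | cons a l ih =>
    intro e he
    rw [unary_cons', List.length_append, List.length_replicate, List.length_cons]
    rw [List.mem_cons] at he
    rcases he with rfl | he
    · omega
    · have := ih he
      omega

theorem length_le_unary : ∀ l : List ℕ, l.length ≤ (unary l).length := by
  intro l
  induction l with
  | nil => simp
  | cons a l ih =>
    rw [unary_cons', List.length_append, List.length_replicate, List.length_cons,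
      List.length_cons]
    omega

section

variable (σ : Sig)

/-- the number of entries of a row -/
abbrev wE : ℕ := (sigE σ).width + 1

theorem iter_size (s : St (wE σ)) (i : ℕ) (hi : i ≤ (eS s).length) :
    (eS (stepS^[i] s)).length ≤ ((.X * (2 * .X + 1) : ℕ[X])).eval (eS s).length := by
  simp only [eval_mul, eval_add, eval_ofNat, eval_one, eval_X]
  obtain ⟨N, hN⟩ : ∃ N, N = (eS s).length := ⟨_, rfl⟩
  rw [← hN] at hi ⊢
  obtain ⟨c, _ | ⟨n, L⟩⟩ := s
  · rw [iter_none]
    have h1 : (ls ((c, none) : St (wE σ))).length ≤ N := by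
      rw [hN]; exact length_le_unary _
    have h2 : c + 1 ≤ N := by
      rw [hN]
      exact le_unary (l := [c, 0, 0]) (by simp)
    have h3 : (unary (ls ((c + i, none) : St (wE σ)))).length ≤
        (ls ((c + i, none) : St (wE σ))).length * (2 * N + 1) := by
      refine unary_le fun e he => ?_
      have : e ∈ [c + i, 0, 0] := he
      simp only [List.mem_cons, List.not_mem_nil, or_false] at this
      omega
    refine h3.trans (Nat.mul_le_mul_right _ ?_)
    exact h1
  · obtain ⟨L', h1, h2, -, -, h5⟩ := iter_spec (𝔸 := (fun _ _ => True : Str σ Unit)) i c n L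
    rw [h1]
    have e1 : ls (c, some (n, L)) = c :: n :: (1 + L.1.length * wE σ) :: L.1.flatten := rfl
    have e2 : ls (c + i, some (n, L')) =
      (c + i) :: n :: (1 + L'.1.length * wE σ) :: L'.1.flatten := rfl
    have hmem : ∀ e ∈ ls (c, some (n, L)), e + 1 ≤ N := fun e he => by
      rw [hN]; exact le_unary he
    rw [e1] at hmem
    have hc := hmem c (by simp)
    have hn := hmem n (by simp)
    have hz := hmem (1 + L.1.length * wE σ) (by simp)
    have hB : Bd N L.1 := by
      intro r hr e he
      have := hmem e (by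
        simp only [List.mem_cons, List.mem_flatten]
        exact Or.inr (Or.inr (Or.inr ⟨r, hr, he⟩)))
      omega
    have hB' := h5 N (by omega) hB
    have h6 : (ls (c + i, some (n, L'))).length ≤ N := by
      have h7 : (ls (c, some (n, L))).length ≤ N := by rw [hN]; exact length_le_unary _
      rw [e1] at h7
      rw [e2]
      simp only [List.length_cons] at h7 ⊢
      rw [flatten_length L'.1 L'.2, h2]
      rw [flatten_length L.1 L.2] at h7
      exact h7
    have h3 : (unary (ls (c + i, some (n, L')))).length ≤
        (ls (c + i, some (n, L'))).length * (2 * N + 1) := by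
      refine unary_le fun e he => ?_
      rw [e2, h2] at he
      simp only [List.mem_cons, List.mem_flatten] at he
      rcases he with rfl | rfl | rfl | ⟨r, hr, he⟩
      · omega
      · omega
      · omega
      · have := hB' r hr e he
        omega
    exact h3.trans (Nat.mul_le_mul_right _ h6)

theorem three_le : 3 ≤ wE σ := by
  have := two_le_width σ
  unfold wE
  omega

theorem polyOn_iter : PolyOn (eS (W := wE σ)) (eS (W := wE σ))
    (fun s => stepS^[(eS s).length] s) :=
  PolyOn.iter (polyOn_step (three_le σ)) _ (iter_size σ)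

/-! ### The first phase -/

/-- the program of the first phase -/
def gI : Lg :=
  cV.ite (.seq (.el (.con 0)) (.seq (.el (.inp (.con 2))) (.seq (.el (.inp (.con 1)))
    (.loop (.inp (.con 1)) ((Cd.le (.add (.con 1) (.mul (.con (wE σ)) (.add (.var 0) (.con 1))))
      (.inp (.con 1))).ite (many (List.range (wE σ)) (fun p =>
        .el (.inp (.add (.add (.con 3) (.mul (.con (wE σ)) (.var 0))) (.con p))))) .nil)))))
    (.seq (.el (.con 0)) (.seq (.el (.con 0)) (.el (.con 0))))

open Classical in
/-- the state of an input -/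
noncomputable def init (x : List Bool) : St (wE σ) :=
  if h : ∃ n L, (∀ c ∈ L, c.length = (sigE σ).width + 1) ∧ code n L = x then
    (0, some (h.choose, ⟨h.choose_spec.choose, h.choose_spec.choose_spec.1⟩)) else (0, none)

theorem init_code {n : ℕ} {L : List (List ℕ)} (hL : ∀ c ∈ L, c.length = (sigE σ).width + 1) :
    init σ (code n L) = (0, some (n, ⟨L, hL⟩)) := by
  have h : ∃ n' L', (∀ c ∈ L', c.length = (sigE σ).width + 1) ∧ code n' L' = code n L :=
    ⟨n, L, hL, rfl⟩
  have h1 : init σ (code n L) = (0, some (h.choose, ⟨h.choose_spec.choose,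
    h.choose_spec.choose_spec.1⟩)) := dif_pos h
  obtain ⟨h2, h3⟩ := BP.code_inj (by omega) h.choose_spec.choose_spec.1 hL
    h.choose_spec.choose_spec.2
  rw [h1]
  congr 2
  ext1
  · exact h2
  · exact Subtype.ext h3

theorem init_bad {x : List Bool} (h : ¬ cV.tv (ph (wE σ) x) []) : init σ x = (0, none) := by
  refine dif_neg ?_
  rintro ⟨n, L, h1, rfl⟩
  obtain ⟨M, hM, h0, -, -, h3, -⟩ := ph_vals (n := n) h1
  refine h ?_
  change cV.tv (ph ((sigE σ).width + 1) (code n L)) []
  rw [hM]
  simp only [cV, tv_and, tv_le, tv_eq, Ex.val, h0, h3]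
  exact ⟨le_rfl, trivial⟩

theorem gI_out (x : List Bool) : (gI σ).out (ph (wE σ) x) [] = ls (init σ x) := by
  classical
  unfold gI
  rw [Cd.ite_out]
  by_cases h : cV.tv (ph (wE σ) x) []
  · rw [if_pos h]
    obtain ⟨n, L, hL, rfl⟩ := code_of_cV (σ := sigE σ) h
    rw [init_code σ hL]
    obtain ⟨M, hM, h0, h1, h2, h3, h4⟩ := ph_vals (n := n) hL
    change Lg.out (ph ((sigE σ).width + 1) (code n L)) [] _ =
      0 :: n :: (1 + L.length * wE σ) :: L.flatten
    rw [hM]
    simp only [Lg.out, Ex.val, h1, h2, List.singleton_append]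
    congr 3
    simp only [Cd.ite_out]
    have e1 : ∀ i, (if (Cd.le (.add (.con 1) (.mul (.con (wE σ)) (.add (.var 0) (.con 1))))
        (.inp (.con 1))).tv M [i] then (many (List.range (wE σ)) (fun p =>
          Lg.el (.inp (.add (.add (.con 3) (.mul (.con (wE σ)) (.var 0))) (.con p))))).out M [i]
          else Lg.out M [i] .nil) = (if (Cd.le (.add (.con 1) (.mul (.con (wE σ))
            (.add (.var 0) (.con 1)))) (.inp (.con 1))).tv M [i] then
          (many (List.range (wE σ)) (fun p =>
          Lg.el (.inp (.add (.add (.con 3) (.mul (.con (wE σ)) (.var 0))) (.con p))))).out M [i]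
          else []) := fun i => rfl
    simp only [e1]
    rw [range_flatMap (R := L.length) _ (fun i => (Cd.le (.add (.con 1) (.mul (.con (wE σ))
      (.add (.var 0) (.con 1)))) (.inp (.con 1))).tv M [i]) (by
        have := Nat.le_mul_of_pos_right L.length (show 0 < (sigE σ).width + 1 by omega)
        omega) (by
      intro j
      simp only [tv_le, Ex.val, h1, List.getD_cons_zero]
      exact row_lt j (by unfold wE; omega))]
    have key : ∀ j, j < L.length → (many (List.range (wE σ)) (fun p =>
        Lg.el (.inp (.add (.add (.con 3) (.mul (.con (wE σ)) (.var 0))) (.con p))))).out M [j] =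
        L.getD j [] := by
      intro j hj
      rw [many_out]
      simp only [Lg.out, Ex.val, List.getD_cons_zero]
      rw [flatMap_sing]
      have hlen : (L.getD j []).length = wE σ := hL _ (getD_mem hj)
      refine List.ext_getElem (by rw [hlen]; simp) (fun i h5 h6 => ?_)
      have hi : i < wE σ := by simpa using h5
      rw [List.getElem_map, List.getElem_range]
      have h7 := h4 j hj i hi
      rw [h7]
      have e : L.getD j [] = L[j] := by
        rw [List.getD_eq_getElem?_getD, List.getElem?_eq_getElem hj]
        rfl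
      rw [List.getD_eq_getElem?_getD, List.getElem?_eq_getElem (by rw [← e]; exact h6)]
      simp only [Option.getD_some, e]
    rw [List.flatMap_congr (fun j hj => key j (List.mem_range.1 hj))]
    have := range_flatten L id
    simpa using this
  · rw [if_neg h, init_bad σ h]
    rfl

theorem polyOn_init : PolyOn (fun w : List Bool => w) (eS (W := wE σ)) (init σ) :=
  ((polyOn_numsR.comp (polyOn_lg (lgF (wE σ)))).comp (polyOn_lg (gI σ))).congr
    (fun q => q) (fun _ => rfl) (fun x => by
      change unary ((gI σ).out (ph (wE σ) x) []) = _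
      rw [gI_out])

/-! ### The last phase -/

/-- the rows of the last phase -/
def wF : Wg :=
  .loop (.inp (.con 2)) (.cond (cR (wE σ)) (Wg.many (List.finRange σ.m) (fun l =>
    .cond (Cd.eq (eR (wE σ) 0) (.con (l + 1))) (.row (.con l ::
      (List.range σ.width).map (fun p => eR (wE σ) (p + 1)))))))

/-- the program of the last phase -/
def gF : Lg := (Cd.le (.con 1) (.inp (.con 2))).ite (.seq (.el (.inp (.con 1))) (wF σ).toLg) .nil

theorem gF_none (c : ℕ) : (gF σ).out (ls ((c, none) : St (wE σ))) [] = [] := by
  classical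
  unfold gF
  rw [Cd.ite_out, if_neg]
  · rfl
  · simp [ls, Ex.val]

theorem gF_some (c n : ℕ) (L : {L : List (List ℕ) // ∀ r ∈ L, r.length = wE σ}) :
    ∃ L' : List (List ℕ), (∀ r ∈ L', r.length = σ.width + 1) ∧
      unary ((gF σ).out (ls (c, some (n, L))) []) = code n L' ∧
      ∀ x, x ∈ L' ↔ ∃ r ∈ L.1, ∃ l : Fin σ.m, r.getD 0 0 = l + 1 ∧
        x = (l : ℕ) :: (List.range σ.width).map (fun p => r.getD (p + 1) 0) := by
  classical
  obtain ⟨L, hL⟩ := L
  have hw := width_le σ
  have mR := fun (j : ℕ) (hj : j < L.length) (p : ℕ) (hp : p < wE σ) =>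
    ls_entry hL (c := c) (n := n) hj hp
  have hls : ls (c, some (n, (⟨L, hL⟩ : {L : List (List ℕ) // ∀ c ∈ L, c.length = wE σ}))) =
        c :: n :: (1 + L.length * wE σ) :: L.flatten := rfl
  rw [hls]
  generalize hM : c :: n :: (1 + L.length * wE σ) :: L.flatten = M at mR
  have m1 : M.getD 1 0 = n := by rw [← hM]; rfl
  have m2 : M.getD 2 0 = 1 + L.length * wE σ := by rw [← hM]; rfl
  have hmem : ∀ x, x ∈ (wF σ).out M [] ↔ ∃ r ∈ L, ∃ l : Fin σ.m, r.getD 0 0 = l + 1 ∧
        x = (l : ℕ) :: (List.range σ.width).map (fun p => r.getD (p + 1) 0) := by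
    intro x
    unfold wF
    rw [Wg.mem_loop]
    have hrow : ∀ j, j < L.length → ∀ l : Fin σ.m, ((Ex.con l ::
        (List.range σ.width).map (fun p => eR (wE σ) (p + 1))).map (fun e => e.val M [j])) =
        (l : ℕ) :: (List.range σ.width).map (fun p => (L.getD j []).getD (p + 1) 0) := by
      intro j hj l
      rw [List.map_cons, List.map_map]
      congr 1
      refine List.map_congr_left fun p hp => ?_
      rw [List.mem_range] at hp
      simp only [comp_apply, eR, Ex.val, List.getD_cons_zero]
      exact mR j hj (p + 1) (by unfold wE; omega)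
    constructor
    · rintro ⟨j, -, hj⟩
      rw [Wg.mem_cond, Wg.mem_many] at hj
      obtain ⟨h1, l, -, h2⟩ := hj
      rw [Wg.mem_cond, Wg.mem_row] at h2
      simp only [cR, tv_le, Ex.val, m2, List.getD_cons_zero] at h1
      rw [row_lt j (by unfold wE; omega)] at h1
      simp only [tv_eq, eR, Ex.val, List.getD_cons_zero] at h2
      rw [mR j h1 0 (by unfold wE; omega)] at h2
      refine ⟨L.getD j [], getD_mem h1, l, h2.1, ?_⟩
      rw [← hrow j h1 l]
      exact h2.2
    · rintro ⟨r, hr, l, h2, h3⟩
      obtain ⟨j, hj, rfl⟩ := List.getElem_of_mem hr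
      have e : L.getD j [] = L[j] := by
        rw [List.getD_eq_getElem?_getD, List.getElem?_eq_getElem hj]
        rfl
      rw [← e] at h2 h3
      refine ⟨j, ?_, ?_⟩
      · simp only [Ex.val, m2]
        have := Nat.le_mul_of_pos_right L.length (show 0 < (sigE σ).width + 1 by omega)
        unfold wE
        omega
      · rw [Wg.mem_cond, Wg.mem_many]
        refine ⟨?_, l, List.mem_finRange l, ?_⟩
        · simp only [cR, tv_le, Ex.val, m2, List.getD_cons_zero]
          exact (row_lt j (by unfold wE; omega)).2 hj
        · rw [Wg.mem_cond, Wg.mem_row]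
          constructor
          · simp only [tv_eq, eR, Ex.val, List.getD_cons_zero]
            rw [mR j hj 0 (by unfold wE; omega)]
            exact h2
          · rw [h3, hrow j hj l]
  refine ⟨(wF σ).out M [], ?_, ?_, hmem⟩
  · intro r hr
    obtain ⟨r', -, l, -, rfl⟩ := (hmem r).1 hr
    simp
  · unfold gF
    rw [Cd.ite_out, if_pos (by simp only [tv_le, Ex.val, m2]; omega), code_eq]
    simp only [Lg.out, Wg.toLg_out, Ex.val, m1, List.singleton_append]

theorem polyOn_final : PolyOn (eS (W := wE σ)) unary (fun s => (gF σ).out (ls s) []) :=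
  (polyOn_lg (gF σ)).congr ls (fun _ => rfl) (fun _ => rfl)

/-- The constraint satisfaction problem of the structure with equality reduces to the one of the
structure. -/
theorem manyOne_eq {A : Type} (𝔸 : Str σ A) :
    N793a5b8e.ManyOneReducible (CSP (strE 𝔸)) (CSP 𝔸) := by
  refine manyOne (((polyOn_init σ).comp (polyOn_iter σ)).comp (polyOn_final σ))
    (Q := fun l => CSP 𝔸 (unary l) = true) (fun p => Iff.rfl) (fun x => ?_)
  by_cases h : cV.tv (ph (wE σ) x) []
  · obtain ⟨n, L, hL, rfl⟩ := code_of_cV (σ := sigE σ) h
    rw [csp_code (strE 𝔸) hL, init_code σ hL]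
    set s : St (wE σ) := (0, some (n, ⟨L, hL⟩)) with hs
    obtain ⟨L', h1, h2, h3, h4, -⟩ := iter_spec (𝔸 := 𝔸) (eS s).length 0 n ⟨L, hL⟩
    rw [← hs] at h1
    obtain ⟨L'', h5, h6, h7⟩ := gF_some σ (0 + (eS s).length) n L'
    rw [h1, h6, csp_code 𝔸 h5]
    have hlen : L'.1.length ≤ 0 + (eS s).length := by
      rw [h2, Nat.zero_add]
      have h8 := length_le_unary (ls s)
      have h9 : (ls s).length = 3 + L.length * wE σ := by
        rw [hs]
        change (0 :: n :: (1 + L.length * wE σ) :: L.flatten).length = _
        simp only [List.length_cons]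
        rw [flatten_length L hL]
        unfold wE
        omega
      have h11 := Nat.le_mul_of_pos_right L.length (show 0 < wE σ by unfold wE; omega)
      change L.length ≤ _
      unfold eS
      omega
    have h10 := h4 (fun j hj => absurd hj (by omega))
    rw [← satE_of_tr hlen h10 h7]
    exact h3
  · rw [init_bad σ h, iter_none, gF_none]
    constructor
    · intro hx
      obtain ⟨n, L, h1, rfl⟩ := csp_true (strE 𝔸) hx
      obtain ⟨M, hM, h0, -, -, h3, -⟩ := ph_vals (n := n) h1
      refine absurd ?_ h
      change cV.tv (ph ((sigE σ).width + 1) (code n L)) []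
      rw [hM]
      simp only [cV, tv_and, tv_le, tv_eq, Ex.val, h0, h3]
      exact ⟨le_rfl, trivial⟩
    · intro hx
      exact absurd hx (csp_nil 𝔸)

end

end Pool.Agent.H68.IT
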