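import Pool.Agent.H68.IT.EqStep

/-!
Elimination of equality constraints: the meaning of the steps.
-/

namespace Pool.Agent.H68.IT

open Function
open Pool.Agent.H68.BP (Str IsHom strOf CSP flatten_getD flatten_length Sig)

variable {σ : Sig} {A : Type} {𝔸 : Str σ A}

theorem two_le_width (σ : Sig) : 2 ≤ (sigE σ).width :=
  Finset.le_sup (f := (sigE σ).ar) (Finset.mem_univ (0 : Fin (σ.m + 1)))

theorem ar_le_width (σ : Sig) (l : Fin σ.m) : σ.ar l ≤ (sigE σ).width :=
  Finset.le_sup (f := (sigE σ).ar) (Finset.mem_univ (Fin.succ l : Fin (σ.m + 1)))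

theorem width_le (σ : Sig) : σ.width ≤ (sigE σ).width :=
  Finset.sup_le fun l _ => ar_le_width σ l

/-- homomorphisms to the structure with equality -/
theorem isHomE {n : ℕ} {L : List (List ℕ)} {f : Fin n → A} :
    IsHom (strOf (sigE σ) n L) (strE 𝔸) f ↔
      (∀ r ∈ L, ∀ x y : Fin n, r.getD 0 0 = 0 → r.getD 1 0 = x → r.getD 2 0 = y → f x = f y) ∧
      ∀ r ∈ L, ∀ (l : Fin σ.m) (x : Fin (σ.ar l) → Fin n), r.getD 0 0 = l + 1 →
        (∀ i : Fin (σ.ar l), r.getD (i + 1) 0 = x i) → 𝔸 l (fun i => f (x i)) := by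
  constructor
  · intro h
    constructor
    · intro r hr x y h0 h1 h2
      have h3 := h (0 : Fin (σ.m + 1)) (![x, y] : Fin 2 → Fin n) ⟨r, hr, h0, fun i => by
        change Fin 2 at i
        fin_cases i
        · exact h1
        · exact h2⟩
      exact h3
    · intro r hr l x h0 h1
      exact h (Fin.succ l : Fin (σ.m + 1)) x ⟨r, hr, h0, h1⟩
  · rintro ⟨h1, h2⟩ l
    change Fin (σ.m + 1) at l
    induction l using Fin.cases with
    | zero =>
      rintro x ⟨r, hr, h3, h4⟩
      exact h1 r hr (x (0 : Fin 2)) (x (1 : Fin 2)) h3 (h4 (0 : Fin 2)) (h4 (1 : Fin 2))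
    | succ l =>
      rintro x ⟨r, hr, h3, h4⟩
      exact h2 r hr l x h3 h4

/-- satisfiability -/
def SatE (𝔸 : Str σ A) (n : ℕ) (L : List (List ℕ)) : Prop :=
  ∃ f : Fin n → A, IsHom (strOf (sigE σ) n L) (strE 𝔸) f

theorem getD_mem {L : List (List ℕ)} {j : ℕ} (hj : j < L.length) : L.getD j [] ∈ L := by
  rw [List.getD_eq_getElem?_getD, List.getElem?_eq_getElem hj]
  exact List.getElem_mem hj

theorem sat_step {n c : ℕ} {L : List (List ℕ)} (hL : ∀ r ∈ L, r.length = (sigE σ).width + 1) :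
    SatE 𝔸 n L ↔ SatE 𝔸 n (stepL n c L) := by
  have hw := two_le_width σ
  unfold stepL
  split_ifs with h
  · obtain ⟨hc, h0, hx, hy⟩ := h
    set r₀ := L.getD c [] with hr₀
    have hr₀L : r₀ ∈ L := getD_mem hc
    set x := r₀.getD 1 0 with hxd
    set y := r₀.getD 2 0 with hyd
    constructor
    · rintro ⟨f, hf⟩
      rw [isHomE] at hf
      have hxy : f ⟨x, hx⟩ = f ⟨y, hy⟩ := hf.1 r₀ hr₀L ⟨x, hx⟩ ⟨y, hy⟩ h0 rfl rfl
      have key : ∀ (r : List ℕ) (i : ℕ) (z : Fin n), i + 1 < r.length →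
          (subR x y r).getD (i + 1) 0 = z → ∃ z₀ : Fin n, r.getD (i + 1) 0 = z₀ ∧ f z₀ = f z := by
        intro r i z hi hz
        rw [subR_succ x y r i hi] at hz
        split_ifs at hz with h1
        · refine ⟨⟨x, hx⟩, h1, ?_⟩
          rw [hxy]
          congr 1
          exact Fin.ext hz
        · exact ⟨z, hz, rfl⟩
      refine ⟨f, isHomE.2 ⟨?_, ?_⟩⟩
      · intro r' hr' u v h1 h2 h3
        rw [List.mem_map] at hr'
        obtain ⟨r, hr, rfl⟩ := hr'
        rw [subR_zero] at h1
        obtain ⟨u₀, h4, h5⟩ := key r 0 u (by rw [hL r hr]; omega) h2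
        obtain ⟨v₀, h6, h7⟩ := key r 1 v (by rw [hL r hr]; omega) h3
        rw [← h5, ← h7]
        exact hf.1 r hr u₀ v₀ h1 h4 h6
      · intro r' hr' l t h1 h2
        rw [List.mem_map] at hr'
        obtain ⟨r, hr, rfl⟩ := hr'
        rw [subR_zero] at h1
        have hl := ar_le_width σ l
        have h3 : ∀ i : Fin (σ.ar l), ∃ z₀ : Fin n, r.getD (i + 1) 0 = z₀ ∧ f z₀ = f (t i) :=
          fun i => key r i (t i) (by rw [hL r hr]; have := i.2; omega) (h2 i)
        choose z h4 h5 using h3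
        have h6 := hf.2 r hr l z h1 h4
        simp only [h5] at h6
        exact h6
    · rintro ⟨f, hf⟩
      rw [isHomE] at hf
      let s : Fin n → Fin n := fun z => if (z : ℕ) = x then ⟨y, hy⟩ else z
      have key : ∀ (r : List ℕ) (i : ℕ) (z : Fin n), i + 1 < r.length →
          r.getD (i + 1) 0 = z → (subR x y r).getD (i + 1) 0 = s z := by
        intro r i z hi hz
        rw [subR_succ x y r i hi, hz]
        simp only [s]
        split_ifs <;> rfl
      refine ⟨fun z => f (s z), isHomE.2 ⟨?_, ?_⟩⟩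
      · intro r hr u v h1 h2 h3
        refine hf.1 (subR x y r) (List.mem_map.2 ⟨r, hr, rfl⟩) (s u) (s v) ?_ ?_ ?_
        · rw [subR_zero]; exact h1
        · exact key r 0 u (by rw [hL r hr]; omega) h2
        · exact key r 1 v (by rw [hL r hr]; omega) h3
      · intro r hr l t h1 h2
        have hl := ar_le_width σ l
        refine hf.2 (subR x y r) (List.mem_map.2 ⟨r, hr, rfl⟩) l (fun i => s (t i)) ?_ ?_
        · rw [subR_zero]; exact h1
        · intro i
          exact key r i (t i) (by rw [hL r hr]; have := i.2; omega) (h2 i)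
  · exact Iff.rfl

/-- the equality constraints before the row `c` are trivial -/
def Tr (n c : ℕ) (L : List (List ℕ)) : Prop :=
  ∀ j < c, j < L.length → isE n (L.getD j []) → (L.getD j []).getD 1 0 = (L.getD j []).getD 2 0

theorem tr_step {n c : ℕ} {L : List (List ℕ)} {W : ℕ} (hW : 3 ≤ W)
    (hL : ∀ r ∈ L, r.length = W) (h : Tr n c L) : Tr n (c + 1) (stepL n c L) := by
  unfold stepL
  split_ifs with hc
  · obtain ⟨hc, h0, hx, hy⟩ := hc
    intro j hj hjL hE
    have hjL' : j < L.length := by simpa using hjL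
    have e : (L.map (subR ((L.getD c []).getD 1 0) ((L.getD c []).getD 2 0))).getD j [] =
        subR ((L.getD c []).getD 1 0) ((L.getD c []).getD 2 0) (L.getD j []) := by
      simp [List.getD_eq_getElem?_getD, hjL']
    rw [e] at hE ⊢
    have hlen : (L.getD j []).length = W := hL _ (getD_mem hjL')
    have e1 := subR_succ ((L.getD c []).getD 1 0) ((L.getD c []).getD 2 0) (L.getD j []) 0
      (by omega)
    have e2 := subR_succ ((L.getD c []).getD 1 0) ((L.getD c []).getD 2 0) (L.getD j []) 1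
      (by omega)
    obtain ⟨g0, g1, g2⟩ := hE
    rw [subR_zero] at g0
    change (subR _ _ (L.getD j [])).getD (0 + 1) 0 < n at g1
    change (subR _ _ (L.getD j [])).getD (1 + 1) 0 < n at g2
    change (subR _ _ (L.getD j [])).getD (0 + 1) 0 = (subR _ _ (L.getD j [])).getD (1 + 1) 0
    rw [e1] at g1 ⊢
    rw [e2] at g2 ⊢
    rcases Nat.lt_succ_iff_lt_or_eq.1 hj with hj' | rfl
    · have h1 : isE n (L.getD j []) := by
        refine ⟨g0, ?_, ?_⟩
        · split_ifs at g1 with h3
          · change (L.getD j []).getD (0 + 1) 0 < n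
            rw [h3]; exact hx
          · exact g1
        · split_ifs at g2 with h3
          · change (L.getD j []).getD (1 + 1) 0 < n
            rw [h3]; exact hx
          · exact g2
      have h2 : (L.getD j []).getD (0 + 1) 0 = (L.getD j []).getD (1 + 1) 0 := h j hj' hjL' h1
      rw [h2]
    · rw [if_pos rfl]
      split_ifs <;> rfl
  · intro j hj hjL hE
    rcases Nat.lt_succ_iff_lt_or_eq.1 hj with hj' | rfl
    · exact h j hj' hjL hE
    · exact absurd ⟨hjL, hE⟩ hc

/-- the iterated steps -/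
theorem iter_spec (k : ℕ) : ∀ (c n : ℕ)
    (L : {L : List (List ℕ) // ∀ r ∈ L, r.length = (sigE σ).width + 1}),
    ∃ L' : {L : List (List ℕ) // ∀ r ∈ L, r.length = (sigE σ).width + 1},
      stepS^[k] (c, some (n, L)) = (c + k, some (n, L')) ∧ L'.1.length = L.1.length ∧
      (SatE 𝔸 n L.1 ↔ SatE 𝔸 n L'.1) ∧ (Tr n c L.1 → Tr n (c + k) L'.1) ∧
      ∀ M, n ≤ M → Bd M L.1 → Bd M L'.1 := by
  induction k with
  | zero =>
    intro c n L
    exact ⟨L, rfl, rfl, Iff.rfl, id, fun _ _ h => h⟩
  | succ k ih =>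
    intro c n L
    obtain ⟨L', h1, h2, h3, h4, h5⟩ := ih (c + 1) n ⟨stepL n c L.1, stepL_len n c L.1 L.2⟩
    refine ⟨L', ?_, ?_, ?_, ?_, ?_⟩
    · rw [Function.iterate_succ_apply]
      change stepS^[k] (c + 1, some (n, ⟨stepL n c L.1, stepL_len n c L.1 L.2⟩)) = _
      rw [h1, show c + 1 + k = c + (k + 1) by omega]
    · rw [h2]
      exact stepL_length n c L.1
    · exact (sat_step L.2).trans h3
    · intro h
      have h6 := h4 (tr_step (W := (sigE σ).width + 1) (by have := two_le_width σ; omega) L.2 h)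
      rwa [show c + 1 + k = c + (k + 1) by omega] at h6
    · intro M hM hB
      exact h5 M hM (stepL_bd hM hB)

theorem iter_none {W : ℕ} (k : ℕ) : ∀ c : ℕ, stepS^[k] ((c, none) : St W) = (c + k, none) := by
  induction k with
  | zero => intro c; rfl
  | succ k ih =>
    intro c
    rw [Function.iterate_succ_apply]
    change stepS^[k] ((c + 1, none) : St W) = _
    rw [ih, show c + 1 + k = c + (k + 1) by omega]

/-- without non-trivial equality constraints -/
theorem satE_of_tr {n c : ℕ} {L L' : List (List ℕ)} (hc : L.length ≤ c) (hT : Tr n c L)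
    (hL' : ∀ x, x ∈ L' ↔ ∃ r ∈ L, ∃ l : Fin σ.m, r.getD 0 0 = l + 1 ∧
      x = (l : ℕ) :: (List.range σ.width).map (fun p => r.getD (p + 1) 0)) :
    SatE 𝔸 n L ↔ ∃ f : Fin n → A, IsHom (strOf σ n L') 𝔸 f := by
  refine exists_congr fun f => ?_
  rw [isHomE]
  have hget : ∀ (r : List ℕ) (l : Fin σ.m) (i : Fin (σ.ar l)),
      ((l : ℕ) :: (List.range σ.width).map (fun p => r.getD (p + 1) 0)).getD (i + 1) 0 =
        r.getD (i + 1) 0 := by
    intro r l i
    have h1 : σ.ar l ≤ σ.width := Finset.le_sup (f := σ.ar) (Finset.mem_univ l)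
    have h2 : (i : ℕ) < σ.width := lt_of_lt_of_le i.2 h1
    rw [List.getD_cons_succ]
    simp [List.getD_eq_getElem?_getD, h2]
  constructor
  · rintro ⟨-, h2⟩ l x ⟨r', hr', h3, h4⟩
    obtain ⟨r, hr, l', h5, rfl⟩ := (hL' _).1 hr'
    have h6 : l' = l := Fin.ext h3
    subst h6
    exact h2 r hr l' x h5 fun i => by rw [← hget r l' i]; exact h4 i
  · intro h
    constructor
    · intro r hr x y h0 h1 h2
      obtain ⟨j, hj, rfl⟩ := List.getElem_of_mem hr
      have e : L.getD j [] = L[j] := by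
        rw [List.getD_eq_getElem?_getD, List.getElem?_eq_getElem hj]
        rfl
      have h3 := hT j (by omega) hj (by
        rw [e]
        refine ⟨h0, ?_, ?_⟩
        · rw [h1]; exact x.2
        · rw [h2]; exact y.2)
      rw [e, h1, h2] at h3
      rw [Fin.ext h3]
    · intro r hr l x h0 h1
      refine h l x ⟨_, (hL' _).2 ⟨r, hr, l, h0, rfl⟩, rfl, fun i => ?_⟩
      rw [hget r l i]
      exact h1 i

end Pool.Agent.H68.IT
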