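import Pool.Agent.H68.IT.Iter
import Pool.Agent.H68.BG.Main

/-!
Elimination of equality constraints: the steps of the substitution.
-/

namespace Pool.Agent.H68.IT

open Pool.Agent.H1.NP Pool.Agent.H1.PNP Pool.Agent.H68.OQP
open Pool.Agent.H68.NPH hiding prs eN
open Function Polynomial
open Pool.Agent.H68.BP (Str IsHom strOf CSP flatten_getD flatten_length Sig)

/-- the signature with an additional binary symbol, the symbol `0` -/
def sigE (σ : Sig) : Sig := ⟨σ.m + 1, Fin.cases 2 σ.ar⟩

/-- the structure with the additional relation of equality -/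
def strE {σ : Sig} {A : Type} (𝔸 : Str σ A) : Str (sigE σ) A :=
  Fin.cases (motive := fun l => (Fin ((sigE σ).ar l) → A) → Prop)
    (fun x : Fin 2 → A => x 0 = x 1) (fun l x => 𝔸 l x)

/-- replace `x` by `y` in all entries but the first one -/
def subR (x y : ℕ) : List ℕ → List ℕ
  | [] => []
  | a :: t => a :: t.map (fun e => if e = x then y else e)

theorem subR_length (x y : ℕ) (r : List ℕ) : (subR x y r).length = r.length := by
  cases r <;> simp [subR]

theorem subR_zero (x y : ℕ) (r : List ℕ) : (subR x y r).getD 0 0 = r.getD 0 0 := by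
  cases r <;> rfl

theorem subR_succ (x y : ℕ) (r : List ℕ) (i : ℕ) (hi : i + 1 < r.length) :
    (subR x y r).getD (i + 1) 0 = if r.getD (i + 1) 0 = x then y else r.getD (i + 1) 0 := by
  cases r with
  | nil => simp at hi
  | cons a t =>
    have hi' : i < t.length := by simpa using hi
    simp [subR, List.getD_eq_getElem?_getD, hi']

/-- row `c` is an equality constraint -/
def isE (n : ℕ) (r : List ℕ) : Prop := r.getD 0 0 = 0 ∧ r.getD 1 0 < n ∧ r.getD 2 0 < n

open Classical in
/-- one step -/
noncomputable def stepL (n c : ℕ) (L : List (List ℕ)) : List (List ℕ) :=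
  if c < L.length ∧ isE n (L.getD c []) then
    L.map (subR ((L.getD c []).getD 1 0) ((L.getD c []).getD 2 0)) else L

theorem stepL_length (n c : ℕ) (L : List (List ℕ)) : (stepL n c L).length = L.length := by
  unfold stepL
  split_ifs <;> simp

theorem stepL_len {W : ℕ} (n c : ℕ) (L : List (List ℕ)) (hL : ∀ r ∈ L, r.length = W) :
    ∀ r ∈ stepL n c L, r.length = W := by
  unfold stepL
  split_ifs
  · intro r hr
    rw [List.mem_map] at hr
    obtain ⟨r', h, rfl⟩ := hr
    rw [subR_length, hL r' h]
  · exact hL

/-- entries do not exceed a bound -/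
def Bd (M : ℕ) (L : List (List ℕ)) : Prop := ∀ r ∈ L, ∀ e ∈ r, e ≤ M

theorem stepL_bd {M : ℕ} {n c : ℕ} {L : List (List ℕ)} (hn : n ≤ M) (hL : Bd M L) :
    Bd M (stepL n c L) := by
  unfold stepL
  split_ifs with h
  · intro r hr e he
    rw [List.mem_map] at hr
    obtain ⟨r', h', rfl⟩ := hr
    cases r' with
    | nil => simp [subR] at he
    | cons a t =>
      simp only [subR, List.mem_cons, List.mem_map] at he
      rcases he with rfl | ⟨e', he', rfl⟩
      · exact hL _ h' _ (by simp)
      · split_ifs with h1
        · exact le_trans h.2.2.2.le hn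
        · exact hL _ h' _ (by simp [he'])
  · exact hL

/-! ### States -/

/-- states: a counter and an instance (or none) -/
abbrev St (W : ℕ) : Type := ℕ × Option (ℕ × {L : List (List ℕ) // ∀ c ∈ L, c.length = W})

/-- the numbers of a state -/
def ls {W : ℕ} : St W → List ℕ
  | (c, none) => [c, 0, 0]
  | (c, some (n, L)) => c :: n :: (1 + L.1.length * W) :: L.1.flatten

/-- one step -/
noncomputable def stepS {W : ℕ} : St W → St W
  | (c, none) => (c + 1, none)
  | (c, some (n, L)) => (c + 1, some (n, ⟨stepL n c L.1, stepL_len n c L.1 L.2⟩))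

/-- the entry `p` of the row given by the innermost index -/
def eR (W p : ℕ) : Ex := .inp (.add (.add (.con 3) (.mul (.con W) (.var 0))) (.con p))

/-- the entry `p` of the row given by the counter -/
def eC (W p : ℕ) : Ex := .inp (.add (.add (.con 3) (.mul (.con W) (.inp (.con 0)))) (.con p))

/-- the row given by the counter is a substitution -/
def cS (W : ℕ) : Cd :=
  ((Cd.le (.add (.con 1) (.mul (.con W) (.add (.inp (.con 0)) (.con 1)))) (.inp (.con 2))).and
    (Cd.eq (eC W 0) (.con 0))).and
      ((Cd.lt (eC W 1) (.inp (.con 1))).and (Cd.lt (eC W 2) (.inp (.con 1))))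

/-- the row given by the innermost index exists -/
def cR (W : ℕ) : Cd :=
  Cd.le (.add (.con 1) (.mul (.con W) (.add (.var 0) (.con 1)))) (.inp (.con 2))

/-- generators indexed by a list -/
def many {α : Type} (L : List α) (g : α → Lg) : Lg := L.foldr (fun a h => .seq (g a) h) .nil

theorem many_out {α : Type} (L : List α) (g : α → Lg) (l env : List ℕ) :
    (many L g).out l env = L.flatMap (fun a => (g a).out l env) := by
  induction L with
  | nil => rfl
  | cons a L ih =>
    have : (many (a :: L) g).out l env = (Lg.seq (g a) (many L g)).out l env := rfl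
    rw [this]
    simp only [Lg.out, ih, List.flatMap_cons]

/-- the program of a step -/
def gS (W : ℕ) : Lg :=
  .seq (.el (.add (.inp (.con 0)) (.con 1))) (.seq (.el (.inp (.con 1)))
    (.seq (.el (.inp (.con 2)))
      (.loop (.inp (.con 2)) ((cR W).ite
        (.seq (.el (eR W 0)) (many (List.range (W - 1)) (fun p =>
          ((cS W).and (Cd.eq (eR W (p + 1)) (eC W 1))).ite (.el (eC W 2)) (.el (eR W (p + 1))))))
        .nil))))

theorem range_flatMap {α : Type} (F : ℕ → List α) (P : ℕ → Prop) [DecidablePred P] {R Z : ℕ}
    (hRZ : R ≤ Z) (hP : ∀ j, P j ↔ j < R) :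
    (List.range Z).flatMap (fun j => if P j then F j else []) = (List.range R).flatMap F := by
  obtain ⟨d, rfl⟩ := Nat.exists_eq_add_of_le hRZ
  rw [List.range_add, List.flatMap_append]
  have h1 : (List.map (fun x => R + x) (List.range d)).flatMap
      (fun j => if P j then F j else []) = [] := by
    rw [List.flatMap_eq_nil_iff]
    intro j hj
    rw [List.mem_map] at hj
    obtain ⟨i, -, rfl⟩ := hj
    rw [if_neg]
    rw [hP]
    omega
  rw [h1, List.append_nil]
  refine List.flatMap_congr (fun j hj => ?_)
  rw [List.mem_range] at hj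
  rw [if_pos ((hP j).2 hj)]

theorem range_flatten (L : List (List ℕ)) (G : List ℕ → List ℕ) :
    (List.range L.length).flatMap (fun j => G (L.getD j [])) = (L.map G).flatten := by
  rw [← List.flatMap_def]
  induction L with
  | nil => rfl
  | cons a L ih =>
    rw [List.length_cons, List.range_succ_eq_map, List.flatMap_cons, List.flatMap_cons,
      List.flatMap_map]
    simp only [List.getD_cons_zero, List.getD_cons_succ]
    rw [ih]

section

variable {W : ℕ} {L : List (List ℕ)} (hL : ∀ c ∈ L, c.length = W)

include hL

theorem ls_entry {c n : ℕ} {j : ℕ} (hj : j < L.length) {p : ℕ} (hp : p < W) :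
    (c :: n :: (1 + L.length * W) :: L.flatten).getD (3 + W * j + p) 0 =
      (L.getD j []).getD p 0 := by
  rw [show 3 + W * j + p = (j * W + p) + 1 + 1 + 1 by rw [Nat.mul_comm]; omega,
    List.getD_cons_succ, List.getD_cons_succ, List.getD_cons_succ, flatten_getD L hL j hj p hp,
    List.getD_eq_getElem?_getD (l := L), List.getElem?_eq_getElem hj]
  rfl

omit hL in
theorem row_lt (j : ℕ) (hW : 0 < W) : 1 + W * (j + 1) ≤ 1 + L.length * W ↔ j < L.length := by
  constructor
  · intro h
    have : (j + 1) * W ≤ L.length * W := by
      rw [Nat.mul_comm (j + 1)]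
      omega
    exact Nat.lt_of_succ_le (Nat.le_of_mul_le_mul_right this hW)
  · intro h
    have : (j + 1) * W ≤ L.length * W := Nat.mul_le_mul_right _ h
    rw [Nat.mul_comm (j + 1)] at this
    omega

theorem cS_iff (hW : 3 ≤ W) {c n : ℕ} {env : List ℕ} :
    (cS W).tv (c :: n :: (1 + L.length * W) :: L.flatten) env ↔
      c < L.length ∧ isE n (L.getD c []) := by
  have mR := fun (j : ℕ) (hj : j < L.length) (p : ℕ) (hp : p < W) =>
    ls_entry hL (c := c) (n := n) hj hp
  generalize hM : c :: n :: (1 + L.length * W) :: L.flatten = M at mR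
  have m0 : M.getD 0 0 = c := by rw [← hM]; rfl
  have m1 : M.getD 1 0 = n := by rw [← hM]; rfl
  have m2 : M.getD 2 0 = 1 + L.length * W := by rw [← hM]; rfl
  simp only [cS, tv_and, tv_le, tv_eq, tv_lt, eC, Ex.val, m0, m1, m2]
  rw [row_lt c (by omega)]
  constructor
  · rintro ⟨⟨h1, h2⟩, h3, h4⟩
    rw [mR c h1 _ (by omega)] at h2 h3 h4
    exact ⟨h1, h2, h3, h4⟩
  · rintro ⟨h1, h2, h3, h4⟩
    rw [mR c h1 _ (by omega), mR c h1 _ (by omega), mR c h1 _ (by omega)]
    exact ⟨⟨h1, h2⟩, h3, h4⟩

end

theorem gS_out {W : ℕ} (hW : 3 ≤ W) (s : St W) : (gS W).out (ls s) [] = ls (stepS s) := by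
  classical
  obtain ⟨c, _ | ⟨n, L, hL⟩⟩ := s
  · simp [gS, Lg.out, ls, stepS, Ex.val]
  · have hls : ls (c, some (n, (⟨L, hL⟩ : {L : List (List ℕ) // ∀ c ∈ L, c.length = W}))) =
        c :: n :: (1 + L.length * W) :: L.flatten := rfl
    have hls' : ls (stepS (c, some (n, (⟨L, hL⟩ : {L : List (List ℕ) // ∀ c ∈ L, c.length = W})))) =
        (c + 1) :: n :: (1 + (stepL n c L).length * W) :: (stepL n c L).flatten := rfl
    rw [hls, hls', stepL_length]
    generalize hM : c :: n :: (1 + L.length * W) :: L.flatten = M
    have m0 : M.getD 0 0 = c := by rw [← hM]; rfl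
    have m1 : M.getD 1 0 = n := by rw [← hM]; rfl
    have m2 : M.getD 2 0 = 1 + L.length * W := by rw [← hM]; rfl
    have mR : ∀ j, j < L.length → ∀ p, p < W → M.getD (3 + W * j + p) 0 =
        (L.getD j []).getD p 0 := by
      intro j hj p hp
      rw [← hM]
      exact ls_entry hL hj hp
    have mS : ∀ env, (cS W).tv M env ↔ c < L.length ∧ isE n (L.getD c []) := by
      intro env
      rw [← hM]
      exact cS_iff hL hW
    simp only [gS, Lg.out, Ex.val, m0, m1, m2, List.singleton_append]
    congr 3
    simp only [Cd.ite_out]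
    rw [show (fun i : ℕ => if (cR W).tv M [i] then (Lg.out M [i] (.seq (.el (eR W 0))
        (many (List.range (W - 1)) (fun p => ((cS W).and (Cd.eq (eR W (p + 1)) (eC W 1))).ite
          (.el (eC W 2)) (.el (eR W (p + 1)))))) : List ℕ) else Lg.out M [i] .nil) =
      (fun i : ℕ => if (cR W).tv M [i] then (Lg.out M [i] (.seq (.el (eR W 0))
        (many (List.range (W - 1)) (fun p => ((cS W).and (Cd.eq (eR W (p + 1)) (eC W 1))).ite
          (.el (eC W 2)) (.el (eR W (p + 1)))))) : List ℕ) else []) from rfl]
    rw [range_flatMap (R := L.length) _ (fun i => (cR W).tv M [i]) (by nlinarith) (by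
      intro j
      simp only [cR, tv_le, Ex.val, m2, List.getD_cons_zero]
      exact row_lt j (by omega))]
    -- the rows
    have key : ∀ j, j < L.length → (Lg.out M [j] (.seq (.el (eR W 0))
        (many (List.range (W - 1)) (fun p => ((cS W).and (Cd.eq (eR W (p + 1)) (eC W 1))).ite
          (.el (eC W 2)) (.el (eR W (p + 1)))))) : List ℕ) =
        (if c < L.length ∧ isE n (L.getD c []) then
          subR ((L.getD c []).getD 1 0) ((L.getD c []).getD 2 0) (L.getD j []) else L.getD j []) := by
      intro j hj
      have hlen : (L.getD j []).length = W := by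
        rw [List.getD_eq_getElem?_getD, List.getElem?_eq_getElem hj]
        exact hL _ (List.getElem_mem hj)
      have hrow : ∃ a t, L.getD j [] = a :: t ∧ t.length = W - 1 := by
        cases h : L.getD j [] with
        | nil => rw [h] at hlen; simp at hlen; omega
        | cons a t =>
          rw [h] at hlen
          exact ⟨a, t, rfl, by simp at hlen; omega⟩
      obtain ⟨a, t, hat, ht⟩ := hrow
      simp only [Lg.out, many_out, Cd.ite_out, tv_and, tv_eq, mS, eR, Ex.val,
        List.getD_cons_zero, List.singleton_append]
      rw [mR j hj 0 (by omega), hat, List.getD_cons_zero]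
      have hmap : (List.range (W - 1)).flatMap (fun p : ℕ =>
          if (c < L.length ∧ isE n (L.getD c [])) ∧
              M.getD (3 + W * j + (p + 1)) 0 = (eC W 1).val M [j] then [(eC W 2).val M [j]]
          else [M.getD (3 + W * j + (p + 1)) 0]) =
          t.map (fun e => if c < L.length ∧ isE n (L.getD c []) then
            (if e = (L.getD c []).getD 1 0 then (L.getD c []).getD 2 0 else e) else e) := by
        have h1 : ∀ p ∈ List.range (W - 1), (if (c < L.length ∧ isE n (L.getD c [])) ∧
              M.getD (3 + W * j + (p + 1)) 0 = (eC W 1).val M [j] then [(eC W 2).val M [j]]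
            else [M.getD (3 + W * j + (p + 1)) 0]) =
            [if c < L.length ∧ isE n (L.getD c []) then
              (if t.getD p 0 = (L.getD c []).getD 1 0 then (L.getD c []).getD 2 0
                else t.getD p 0) else t.getD p 0] := by
          intro p hp
          rw [List.mem_range] at hp
          rw [mR j hj (p + 1) (by omega), hat, List.getD_cons_succ]
          by_cases hc : c < L.length ∧ isE n (L.getD c [])
          · have e1 : (eC W 1).val M [j] = (L.getD c []).getD 1 0 := by
              simp only [eC, Ex.val, m0]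
              exact mR c hc.1 1 (by omega)
            have e2 : (eC W 2).val M [j] = (L.getD c []).getD 2 0 := by
              simp only [eC, Ex.val, m0]
              exact mR c hc.1 2 (by omega)
            rw [e1, e2]
            by_cases h2 : t.getD p 0 = (L.getD c []).getD 1 0
            · rw [if_pos ⟨hc, h2⟩, if_pos hc, if_pos h2]
            · rw [if_neg (fun h => h2 h.2), if_pos hc, if_neg h2]
          · rw [if_neg (fun h => hc h.1), if_neg hc]
        rw [List.flatMap_congr h1, flatMap_sing]
        refine List.ext_getElem (by simp [ht]) (fun i h3 h4 => ?_)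
        have hi : i < t.length := by simpa using h4
        rw [List.getElem_map, List.getElem_range, List.getElem_map]
        have : t.getD i 0 = t[i] := by
          rw [List.getD_eq_getElem?_getD, List.getElem?_eq_getElem hi]
          rfl
        rw [this]
      rw [hmap]
      by_cases hc : c < L.length ∧ isE n (L.getD c [])
      · simp only [if_pos hc]
        rfl
      · simp only [if_neg hc, List.map_id']
    rw [List.flatMap_congr (fun j hj => key j (List.mem_range.1 hj))]
    unfold stepL
    by_cases hc : c < L.length ∧ isE n (L.getD c [])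
    · simp only [if_pos hc]
      exact range_flatten L _
    · simp only [if_neg hc]
      have := range_flatten L id
      simpa using this

end Pool.Agent.H68.IT
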