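import Pool.Agent.H1.NP.Poly

/-!
Iteration of functions computed by stack programs in polynomial time.
-/

namespace Pool.Agent.H68.IT

open Turing Function Pool.Agent.H70.TM Polynomial Pool.Agent.H68.OQP Pool.Agent.H1.Gen
open Pool.Agent.H1.NP

/-- a stack which is not used can have any content -/
theorem run_frame {n k : ℕ} (hk : n ≤ k) (x : List Bool) {c : Cmd ℕ Fl} {v v' : Fl}
    {S S' : ℕ → List Bool} {m : ℕ} (h : Run c v S v' S' m) :
    Below n c → Run c v (update S k x) v' (update S' k x) m := by
  induction h with
  | push j f v S =>
    intro hj
    have hj' : j < n := hj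
    have hne : j ≠ k := by omega
    have h1 := Run.push j f v (update S k x)
    rw [update_of_ne hne, update_comm hne.symm] at h1
    exact h1
  | pop j f v S =>
    intro hj
    have hj' : j < n := hj
    have hne : j ≠ k := by omega
    have h1 := Run.pop j f v (update S k x)
    rw [update_of_ne hne, update_comm hne.symm] at h1
    exact h1
  | load f v S => intro _; exact .load f v _
  | seq h1 h2 ih1 ih2 => intro hb; exact .seq (ih1 hb.1) (ih2 hb.2)
  | ite_true hp h1 ih1 => intro hb; exact .ite_true hp (ih1 hb.1)
  | ite_false hp h1 ih1 => intro hb; exact .ite_false hp (ih1 hb.2)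
  | wh_false hp => intro _; exact .wh_false hp
  | wh_true hp h1 h2 ih1 ih2 => intro hb; exact .wh_true hp (ih1 hb) (ih2 hb)

theorem does_frame {n k : ℕ} (hk : n ≤ k) (x : List Bool) {c : Cmd ℕ Fl} {S S' : ℕ → List Bool}
    {t : ℕ} (h : Does c S S' t) (hb : Below n c) :
    Does c (update S k x) (update S' k x) t := by
  intro v
  obtain ⟨v', m, hm, hr⟩ := h v
  exact ⟨v', m, hm, run_frame hk x hr hb⟩

/-- the counting phase: the content of the stack `0` is moved to the stack `2`, and the stack `K`
gets one unit for each entry -/
theorem count_does {K : ℕ} (hK : 3 ≤ K) (w : List Bool) :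
    Does (each 0 (.seq (pu 2) (put K true))) (one1 0 w)
      (update (one1 2 w.reverse) K (List.replicate w.length true)) (w.length * 4 + 2) := by
  have d1 := each_does (a := 0) (B := .seq (pu 2) (put K true)) (t := 2)
    (fun p => update (one1 2 p.reverse) K (List.replicate p.length true)) w (by
      intro p x r hp v hv
      refine ⟨v, 2, le_rfl, ?_⟩
      have h1 := Run.push 2 (fun v : Fl => v.d) v
        (update (update (one1 2 p.reverse) K (List.replicate p.length true)) 0 r)
      have e1 : update (update (update (one1 2 p.reverse) K (List.replicate p.length true)) 0 r) 2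
          (v.d :: update (update (one1 2 p.reverse) K (List.replicate p.length true)) 0 r 2) =
          update (update (one1 2 (x :: p.reverse)) K (List.replicate p.length true)) 0 r := by
        rw [hv]
        funext i
        simp only [one1, Function.update_apply]
        split_ifs <;> first | rfl | omega | simp_all
      rw [e1] at h1
      have h2 := Run.push K (fun _ : Fl => true) v
        (update (update (one1 2 (x :: p.reverse)) K (List.replicate p.length true)) 0 r)
      have e2 : update (update (update (one1 2 (x :: p.reverse)) K
          (List.replicate p.length true)) 0 r) K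
          (true :: update (update (one1 2 (x :: p.reverse)) K
            (List.replicate p.length true)) 0 r K) =
          update (update (one1 2 ((p ++ [x]).reverse)) K
            (List.replicate (p ++ [x]).length true)) 0 r := by
        have e3 : (p ++ [x]).length = p.length + 1 := by simp
        have e4 : (p ++ [x]).reverse = x :: p.reverse := by simp
        rw [e3, e4, List.replicate_succ]
        funext i
        simp only [one1, Function.update_apply]
        split_ifs <;> first | rfl | omega
      rw [e2] at h2
      exact h1.seq h2)
  have e1 : update ((fun p : List Bool => update (one1 2 p.reverse) K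
      (List.replicate p.length true)) []) 0 w = one1 0 w := by
    funext i
    simp only [one1, Function.update_apply, List.reverse_nil, List.length_nil,
      List.replicate_zero]
    split_ifs <;> rfl
  have e2 : update ((fun p : List Bool => update (one1 2 p.reverse) K
      (List.replicate p.length true)) w) 0 [] =
      update (one1 2 w.reverse) K (List.replicate w.length true) := by
    funext i
    simp only [one1, Function.update_apply]
    split_ifs <;> first | rfl | omega
  rw [e1, e2] at d1
  exact d1.mono (by omega)

/-- moving a stack to an empty one, in the presence of the counter -/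
theorem move_does {K a b : ℕ} (hab : a ≠ b) (ha : a < K) (hb : b < K) (w r : List Bool) :
    Does (mv a b) (update (one1 a w) K r) (update (one1 b w.reverse) K r)
      (4 * w.length + 2) := by
  have d := mv_does (a := a) (k := b) hab (S := update (one1 a w) K r)
  have e1 : update (one1 a w) K r a = w := by
    rw [update_of_ne (by omega)]
    simp [one1]
  have e2 : update (one1 a w) K r b = [] := by
    rw [update_of_ne (by omega), one1, update_of_ne hab.symm]
  have e3 : update (update (update (one1 a w) K r) a []) b
      ((update (one1 a w) K r a).reverse ++ update (one1 a w) K r b) =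
      update (one1 b w.reverse) K r := by
    rw [e1, e2, List.append_nil]
    funext i
    simp only [one1, Function.update_apply]
    split_ifs <;> first | rfl | omega
  rw [e3, e1] at d
  exact d

/-- iteration, the number of rounds being the length of the input -/
theorem PolyOn.iter {α : Type} {ea : α → List Bool} {f : α → α} (hf : PolyOn ea ea f)
    (q : ℕ[X]) (hq : ∀ a i, i ≤ (ea a).length → (ea (f^[i] a)).length ≤ q.eval (ea a).length) :
    PolyOn ea ea (fun a => f^[(ea a).length] a) := by
  obtain ⟨c, p, hc⟩ := hf
  obtain ⟨n, hn⟩ := exists_below c
  set K := max n 3 with hKdef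
  have hK : 3 ≤ K := le_max_right _ _
  have hnK : n ≤ K := le_max_left _ _
  refine ⟨.seq (each 0 (.seq (pu 2) (put K true))) (.seq (mv 2 0)
    (.seq (rep K (.seq c (.seq (mv 1 2) (mv 2 0)))) (.seq (mv 0 2) (mv 2 1)))),
    (4 * .X + 2) + ((4 * .X + 2) + ((.X * ((p.comp q + ((4 * q + 2) + (4 * q + 2))) + 2) + 2) +
      ((4 * q + 2) + (4 * q + 2)))), fun a => ?_⟩
  obtain ⟨N, hN⟩ : ∃ N, N = (ea a).length := ⟨_, rfl⟩
  have hq' : ∀ i, i ≤ N → (ea (f^[i] a)).length ≤ q.eval N := by
    intro i hi
    rw [hN]
    rw [hN] at hi
    exact hq a i hi
  change Does _ (one1 0 (ea a)) (one1 1 (ea (f^[(ea a).length] a))) _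
  rw [← hN]
  have d1 := count_does hK (ea a)
  rw [← hN] at d1
  have d2 := move_does (K := K) (a := 2) (b := 0) (by omega) (by omega) (by omega)
    (ea a).reverse (List.replicate N true)
  rw [List.reverse_reverse, List.length_reverse, ← hN] at d2
  have d3 := rep_does (k := K) (B := .seq c (.seq (mv 1 2) (mv 2 0)))
    (t := p.eval (q.eval N) + ((4 * q.eval N + 2) + (4 * q.eval N + 2))) (n := N)
    (fun i => one1 0 (ea (f^[i] a))) (by
      intro j hj
      have b1 := hq' j hj.le
      have b2 := hq' (j + 1) hj
      have c1 := does_frame hnK (List.replicate (N - 1 - j) true) (hc (f^[j] a)) hn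
      rw [← Function.iterate_succ_apply' f j a] at c1
      have c2 := move_does (K := K) (a := 1) (b := 2) (by omega) (by omega) (by omega)
        (ea (f^[j + 1] a)) (List.replicate (N - 1 - j) true)
      have c3 := move_does (K := K) (a := 2) (b := 0) (by omega) (by omega) (by omega)
        (ea (f^[j + 1] a)).reverse (List.replicate (N - 1 - j) true)
      rw [List.reverse_reverse, List.length_reverse] at c3
      refine (c1.seq (c2.seq c3)).mono ?_
      have b3 := eval_mono_nat p b1
      omega)
  have e2 : ∀ (k : ℕ) (w : List Bool), k < K → update (one1 k w) K [] = one1 k w := by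
    intro k w hk
    funext i
    simp only [one1, Function.update_apply]
    split_ifs <;> first | rfl | omega
  simp only [Function.iterate_zero, id] at d3
  rw [e2 0 _ (by omega)] at d3
  have b4 := hq' N le_rfl
  have d4 := move_does (K := K) (a := 0) (b := 2) (by omega) (by omega) (by omega)
    (ea (f^[N] a)) []
  have d5 := move_does (K := K) (a := 2) (b := 1) (by omega) (by omega) (by omega)
    (ea (f^[N] a)).reverse []
  rw [List.reverse_reverse, List.length_reverse] at d5
  rw [e2 0 _ (by omega), e2 2 _ (by omega)] at d4
  rw [e2 2 _ (by omega), e2 1 _ (by omega)] at d5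
  refine (d1.seq (d2.seq (d3.seq (d4.seq d5)))).mono ?_
  simp only [eval_add, eval_mul, eval_ofNat, eval_comp, eval_X]
  omega

end Pool.Agent.H68.IT
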